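import Pool.Agent.V11134.RNA.Check

/-!
# MP_4bbd08_co: a binary unsaturated secondary structure which is not designable
-/

set_option autoImplicit false
set_option maxRecDepth 100000

namespace Pool.Agent.Results.MP_4bbd08_co.NotDesignable

open Pool.Agent.V11134.RNA

theorem check_true : check Cert.RL Cert.alts Cert.cert [] = true := by decide +kernel

theorem good_true : Cert.alts.all (goodAlt 21 Cert.RL 7) = true := by decide +kernel

/-- There is a secondary structure `R` on `{1, …, n}` (here `n = 21`) with the arc `{1, n}` whose tree is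
binary and unsaturated and which is not designable. -/
theorem result : ∃ (n : ℕ) (R : Finset (ℕ × ℕ)), IsStructure n R ∧ (1, n) ∈ R ∧ Binary n R ∧
    Unsaturated n R ∧ ¬ Designable n R := by
  refine ⟨21, Cert.RL.toFinset, ?_, ?_, ?_, ?_, ?_⟩
  · unfold IsStructure
    decide +kernel
  · decide +kernel
  · unfold Binary
    decide +kernel
  · exact ⟨2, by decide +kernel⟩
  · rintro ⟨S, ⟨hR, hS⟩, hmax⟩
    have hS' : ∀ a ∈ Cert.RL, Pairs (S a.1) (S a.2) := fun a ha => hS a (List.mem_toFinset.2 ha)
    obtain ⟨l, hl, hlS⟩ := check_sound hS' Cert.cert [] (by simp) check_true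
    have hgood : goodAlt 21 Cert.RL 7 l = true := List.all_eq_true.1 good_true l hl
    obtain ⟨h1, h2, h3⟩ := goodAlt_sound hgood
    have h4 := hmax l.toFinset ⟨h1, fun a ha => hlS a (List.mem_toFinset.1 ha)⟩ h3
    have h5 : Cert.RL.toFinset.card = 7 := by decide +kernel
    omega

end Pool.Agent.Results.MP_4bbd08_co.NotDesignable
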